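import Pool.Agent.T9h35.SG.Main

set_option autoImplicit false

/-!
# A random chain of inputs without words: the Markov property
-/

namespace Pool.Agent.T9h35.CN

open Finset Pool.Agent.T9h34 Pool.Agent.T9h34.S Pool.Agent.T9h34.S.Gr
open Pool.Agent.T9h34.G (Row sparseCode NoiseOp)
open Pool.Agent.T9h34.V (cut cutOp not_word_cut)
open scoped Classical

variable {a b k m p : ℕ}

/-- The random chain. -/
theorem exists_chain (S : Row a b → Fin k → Fin m) (N' : NoiseOp (Ground a b))
    (e : ℕ → Fin p × Fin p) (ha : 0 < a) (M : ℕ) (he : ∀ i < M, ∀ j < M, e i = e j → i = j) :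
    ∃ (Ω : Type) (_ : Fintype Ω) (ν : Ω → ℝ) (u : Ω → ℕ → Finset (GGround a b p)),
      (∀ ω, 0 ≤ ν ω) ∧ ∑ ω, ν ω = 1 ∧ (∀ ω i, u ω i ⊆ u ω (i + 1)) ∧
      (∀ ω i, ¬ HasWord S (u ω i)) ∧ (∀ ω, Supp e M (u ω M)) ∧
      ∀ j < M, ∀ Φ : (ℕ → Finset (GGround a b p)) → ℝ,
        (∀ v v' : ℕ → Finset (GGround a b p), (∀ i ≤ j, v i = v' i) → Φ v = Φ v') →
        ∀ g : Finset (GGround a b p) → Finset (GGround a b p) → ℝ,
        ∑ ω, ν ω * (Φ (u ω) * g (u ω j) (u ω (j + 1))) =
          ∑ ω, ν ω * (Φ (u ω) * (cutOp S N').E (fun W => g (u ω j) (put (u ω j) (e j) W))) := by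
  induction M with
  | zero =>
    refine ⟨Unit, inferInstance, fun _ => 1, fun _ _ => ∅, fun _ => zero_le_one, by simp,
      fun _ _ => subset_rfl, ?_, ?_, ?_⟩
    · rintro _ _ ⟨e', s, h⟩
      have h5 : (wordSet (sparseCode S) s).card = a := card_wordSet _ s
      obtain ⟨g, hg⟩ := Finset.card_pos.1 (by rw [h5]; exact ha)
      exact absurd (h g hg) (by simp)
    · intro _ q hq
      simp at hq
    · intro j hj
      omega
  | succ M ih =>
    obtain ⟨Ω, _, ν, u, h0, h1, h2, h3, h5, h7⟩ :=
      ih (fun i hi j hj => he i (by omega) j (by omega))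
    have hpush : ∑ W, push N' id W = 1 := sum_push _ _
    have hU' : ∀ ω, ∀ q ∈ u ω M, q.1 ≠ e M := by
      intro ω q hq h
      obtain ⟨i, hi, h8⟩ := h5 ω q hq
      have := he i (by omega) M (by omega) (h8.symm.trans h)
      omega
    refine ⟨Ω × Finset (Ground a b), inferInstance, fun q => ν q.1 * push N' id q.2,
      fun q i => if i ≤ M then u q.1 i else put (u q.1 M) (e M) (cut S q.2),
      fun q => mul_nonneg (h0 _) (push_nonneg _ _ _), ?_, ?_, ?_, ?_, ?_⟩
    · rw [Fintype.sum_prod_type]
      simp only [← Finset.mul_sum, hpush, mul_one]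
      exact h1
    · rintro ⟨ω, W⟩ i
      simp only
      by_cases hi : i + 1 ≤ M
      · rw [if_pos (by omega : i ≤ M), if_pos hi]
        exact h2 ω i
      · by_cases hi2 : i ≤ M
        · have : i = M := by omega
          rw [if_pos hi2, if_neg hi, this]
          exact subset_union_left
        · rw [if_neg hi2, if_neg hi]
    · rintro ⟨ω, W⟩ i
      simp only
      split_ifs with hi
      · exact h3 ω i
      · exact hasWord_put S (hU' ω) ha (h3 ω M) (not_word_cut S ha W)
    · rintro ⟨ω, W⟩
      simp only
      rw [if_neg (by omega)]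
      exact supp_put (h5 ω) _
    · intro j hj Φ hΦ g
      rw [Fintype.sum_prod_type, Fintype.sum_prod_type]
      have hΦ' : ∀ ω (W : Finset (Ground a b)),
          Φ (fun i => if i ≤ M then u ω i else put (u ω M) (e M) (cut S W)) = Φ (u ω) := by
        intro ω W
        apply hΦ
        intro i hi
        rw [if_pos (by omega)]
      have hrhs : ∀ ω, ∑ W : Finset (Ground a b), ν ω * push N' id W *
          (Φ (fun i => if i ≤ M then u ω i else put (u ω M) (e M) (cut S W)) *
            (cutOp S N').E (fun W' => g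
              (if j ≤ M then u ω j else put (u ω M) (e M) (cut S W))
              (put (if j ≤ M then u ω j else put (u ω M) (e M) (cut S W)) (e j) W'))) =
          ν ω * (Φ (u ω) * (cutOp S N').E (fun W' => g (u ω j) (put (u ω j) (e j) W'))) := by
        intro ω
        simp only [hΦ', if_pos (by omega : j ≤ M)]
        rw [← Finset.sum_mul, ← Finset.mul_sum, hpush, mul_one]
      by_cases hjM : j < M
      · have h8 : ∀ ω, ∑ W : Finset (Ground a b), ν ω * push N' id W *
            (Φ (fun i => if i ≤ M then u ω i else put (u ω M) (e M) (cut S W)) *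
              g (if j ≤ M then u ω j else put (u ω M) (e M) (cut S W))
              (if j + 1 ≤ M then u ω (j + 1) else put (u ω M) (e M) (cut S W))) =
            ν ω * (Φ (u ω) * g (u ω j) (u ω (j + 1))) := by
          intro ω
          simp only [hΦ', if_pos hjM.le, if_pos (by omega : j + 1 ≤ M)]
          rw [← Finset.sum_mul, ← Finset.mul_sum, hpush, mul_one]
        simp only [h8, hrhs]
        exact h7 j hjM Φ hΦ g
      · have hj' : j = M := by omega
        subst hj'
        have h8 : ∀ ω, ∑ W : Finset (Ground a b), ν ω * push N' id W *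
            (Φ (fun i => if i ≤ j then u ω i else put (u ω j) (e j) (cut S W)) *
              g (if j ≤ j then u ω j else put (u ω j) (e j) (cut S W))
              (if j + 1 ≤ j then u ω (j + 1) else put (u ω j) (e j) (cut S W))) =
            ν ω * (Φ (u ω) * (cutOp S N').E (fun W => g (u ω j) (put (u ω j) (e j) W))) := by
          intro ω
          have h9 := sum_push_mul N' id (fun W => g (u ω j) (put (u ω j) (e j) (cut S W)))
          simp only [id_eq] at h9
          change _ = ν ω * (Φ (u ω) * N'.E (fun W => g (u ω j) (put (u ω j) (e j) (cut S W))))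
          rw [← h9, Finset.mul_sum, Finset.mul_sum]
          apply Finset.sum_congr rfl
          intro W _
          rw [hΦ', if_neg (by omega : ¬ j + 1 ≤ j), if_pos le_rfl]
          ring
        simp only [h8, hrhs]

end Pool.Agent.T9h35.CN
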