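import Pool.Agent.T9h35.CN.Main

set_option autoImplicit false

/-!
# Certificates of the absence of cliques: the final form
-/

namespace Pool.Agent.T9h35.CN

open Finset
open Pool.Agent.T9h34 (graphInput)
open Pool.Agent.VC34 (changes numTests answers)
open scoped Classical

/-- **Certificates of the absence of cliques**, and the converse. -/
theorem certificates_final : (∃ K : ℕ, ∀ n k s f l z : ℕ,
    l = Nat.log 2 s + Nat.log 2 n + 1 → z = Nat.log 2 (l + f) + 1 → 2 ≤ k → k ≤ n →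
    K * l * z ^ 3 ≤ k → K * l * (l + f) * z ^ 5 ≤ n - k →
    ∃ (M : ℕ) (Ω : Type) (_ : Fintype Ω) (ν : Ω → ℝ) (G : Ω → ℕ → SimpleGraph (Fin n)),
      (n - k) ^ 2 ≤ K * l * (l + f) * z ^ 5 * M ∧
      (∀ ω, 0 ≤ ν ω) ∧ ∑ ω, ν ω = 1 ∧ (∀ ω i, G ω i ≤ G ω (i + 1)) ∧
      (∀ ω i, ¬ ∃ S, (G ω i).IsNClique k S) ∧
      ∀ (d : ℕ) (C : RW.Circuit (Fin n × Fin n)), C.FanIn f d → C.size + numTests C ≤ s →
        (∀ H : SimpleGraph (Fin n), (∃ S, H.IsNClique k S) → C.eval (graphInput H) = true) →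
        (∀ i h : ℕ, i + h ≤ M →
          ∑ ω with (C.eval (graphInput (G ω (i + h))) = false ∧ ∀ j < h,
            answers C (graphInput (G ω (i + j))) = answers C (graphInput (G ω (i + j + 1)))),
            ν ω ≤ (3 / 4) ^ h) ∧
        ∑ i ∈ range (M + 1), ∑ ω with C.eval (graphInput (G ω i)) = false, ν ω ≤
          4 + 4 * ∑ ω, ν ω * changes C M (G ω) ∧
        ∀ ω, changes C M (G ω) + d ≤ d * 2 ^ C.numOther) ∧
    ∀ (n f' d' e : ℕ) (A : RW.Circuit (Fin n × Fin n)), 2 ≤ n → 2 ≤ f' → 2 * d' ≤ f' →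
      A.FanIn f' d' → ∃ B : RW.Circuit (Fin n × Fin n), B.FanIn f' 1 ∧ B.numOther = 1 ∧
        B.size ≤ 2 * A.size + 10 * n ^ 4 ∧
        ∀ G : SimpleGraph (Fin n), B.eval (graphInput G) = false ↔
          (univ.filter fun p : Fin n × Fin n => G.Adj p.1 p.2).card = e ∧
            A.eval (graphInput G) = false := by
  refine ⟨?_, certificates.2⟩
  obtain ⟨K0, hK0⟩ := certificates.1
  refine ⟨32 * K0, ?_⟩
  intro n k s f l z hl hz hk2 hkn h1 h2
  have hz1 : 1 ≤ z := by omega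
  have h3 : K0 * l * (z + 1) ^ 3 ≤ k * 1 ^ 4 := by
    calc K0 * l * (z + 1) ^ 3 ≤ K0 * l * (2 * z) ^ 3 :=
          Nat.mul_le_mul_left _ (Nat.pow_le_pow_left (by omega) 3)
      _ = 8 * (K0 * l * z ^ 3) := by ring
      _ ≤ 32 * (K0 * l * z ^ 3) := Nat.mul_le_mul_right _ (by norm_num)
      _ = 32 * K0 * l * z ^ 3 := by ring
      _ ≤ k * 1 ^ 4 := by simpa using h1
  have h4 := hK0 n k s f 1 le_rfl hk2 hkn
  rw [← hl, ← hz] at h4
  obtain ⟨M, Ω, inst, ν, G, -, h5, h6, h7, h8, h9, h10⟩ := h4 h3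
  have h11 : K0 * l * (l + f) * z ^ 5 * 2 ^ (5 * 1) = 32 * K0 * l * (l + f) * z ^ 5 := by ring
  rw [h11] at h5
  exact ⟨M, Ω, inst, ν, G, h5 h2, h6, h7, h8, h9, h10⟩

end Pool.Agent.T9h35.CN
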