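import Pool.Agent.T9h35.AV.Conv

set_option autoImplicit false
set_option linter.unusedSectionVars false

/-!
# One negation: the circuit `A` on the inputs with exactly `θ` ones
-/

namespace Pool.Agent.T9h35.CN

open Finset
open Pool.Agent.T9h34.Q
open Pool.Agent.HC34 (srcs IsLevel DepthLE)
open Pool.Agent.T9h35.RW (Circuit Gate Src Test runGates Nondecreasing)
open Pool.Agent.T9h12.QC

theorem one_not_aux (P0 : StP0) (P1 : StP1) (P2 : StP2) (P3 : StP3) (P4 : StP4) (ι : Type)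
    [Fintype ι] [DecidableEq ι] (f d' θ : ℕ) (A : RW.Circuit ι) (hf : 2 ≤ f) (hA : A.FanIn f d')
    (hd : 2 * d' ≤ f) :
    ∃ C : RW.Circuit ι, C.FanIn f 1 ∧ C.numTests = 1 ∧
      C.size ≤ 2 * A.size + (Fintype.card ι + 1) * (2 * Fintype.card ι + 1) +
        Fintype.card ι + 3 ∧
      ∀ x, C.eval x = false ↔ ones x = θ ∧ A.eval x = false := by
  classical
  have hDA : DepthLE A A.size := ⟨id, fun j hj => hj, fun i j g _ _ hij => hij⟩
  obtain ⟨DA, hDA'⟩ : ∃ DA, DA = A.size := ⟨_, rfl⟩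
  rw [← hDA'] at hDA
  set n := Fintype.card ι with hn
  set L := Nat.clog 2 n with hL
  have hnL : n ≤ 2 ^ L := Nat.le_pow_clog (by norm_num) n
  have hL2 : 2 ^ L ≤ 2 * n + 1 := by
    rcases Nat.lt_or_ge 1 n with h | h
    · have h1 := Nat.pow_pred_clog_lt_self (b := 2) (by norm_num) h
      have h2 : 0 < Nat.clog 2 n := Nat.clog_pos (by norm_num) h
      have h3 : 2 ^ L = 2 ^ (Nat.clog 2 n).pred * 2 := by
        rw [← pow_succ]
        exact congrArg (2 ^ ·) (Nat.succ_pred_eq_of_pos h2).symm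
      omega
    · have h1 : L = 0 := by
        rw [hL]
        exact Nat.clog_of_right_le_one h 2
      rw [h1]
      omega
  set 𝓕₀ : Set (((ι → Bool) → ℝ) × ℕ) :=
    {p : ((ι → Bool) → ℝ) × ℕ | (∃ i, p.1 = inp i) ∨ ∃ c : ℝ, p.1 = fun _ => c} with h𝓕
  have q0 : Prog f 0 0 0 𝓕₀ := P0 ι f
  have q1 := P3 ι (Option ι) f 0 0 0 0 L L 𝓕₀ (GG ι (2 ^ L)) q0 hf ?_ (Nat.zero_le _) (by simp)
  swap
  · intro k i
    unfold GG
    split
    · exact Or.inr ⟨0, rfl⟩
    · split_ifs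
      · exact Or.inr ⟨0, rfl⟩
      · exact Or.inl ⟨_, rfl⟩
  set S : (ι → Bool) → ℝ := fun x => ∑ i, GG ι (2 ^ L) none i x with hS
  set Sp : ι → (ι → Bool) → ℝ := fun p x => ∑ i, GG ι (2 ^ L) (some p) i x with hSp
  set s1 := 0 + Fintype.card (Option ι) * 2 ^ L with hs1
  set 𝓕₁ := 𝓕₀ ∪ Set.range (fun k : Option ι => ((fun x => ∑ i, GG ι (2 ^ L) k i x), 0 + L))
    with h𝓕1
  have m1 : (S, L) ∈ 𝓕₁ := Or.inr ⟨none, by simp [hS]⟩
  have m2 : ∀ p, (Sp p, L) ∈ 𝓕₁ := fun p => Or.inr ⟨some p, by simp [hSp]⟩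
  have m3 : ((fun _ : ι → Bool => (0 : ℝ)), L) ∈ 𝓕₁ := Or.inl (Or.inr ⟨0, rfl⟩)
  have hfun : ∀ x, (fun _ : ι → Bool => (0 : ℝ)) x = 0 := fun _ => rfl
  obtain ⟨𝓕₃, b1, b2, b3⟩ := add_z P1 (Sp := Sp) (t := fun _ => (0 : ℝ)) (c := (θ : ℝ)) hf q1
    (ℓ' := L) le_rfl m2 m3 univ
  have hsub : ∀ p ∈ 𝓕₀, p ∈ 𝓕₃ := fun p hp => b1 (Or.inl hp)
  obtain ⟨W, hW, q4⟩ := P4 ι f _ _ 0 (L + 1) f d' DA 𝓕₃
    (fun p x => Sp p x + 0 - θ) A b3 (fun p => b2 p (mem_univ _))
    (fun i => hsub _ (Or.inl ⟨i, rfl⟩)) (fun e => hsub _ (Or.inr ⟨e, rfl⟩)) hA le_rfl hd hDA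
    (Nat.le_add_right _ _)
  obtain ⟨N, hN⟩ : ∃ N : (ι → Bool) → ℝ, N = fun x => if (θ : ℝ) ≤ S x then 0 else 1 := ⟨_, rfl⟩
  have q5 := P2 ι f _ _ 0 L (L + 1 + DA) _ S (θ : ℝ) q4 (Set.mem_insert_of_mem _ (b1 m1)) le_rfl
    (by omega)
  rw [← hN] at q5
  obtain ⟨g1, hg1⟩ : ∃ g1 : (ι → Bool) → ℝ, g1 = fun x => if (θ : ℝ) + 1 ≤ S x then (1 : ℝ) else
    if (θ : ℝ) ≤ S x ∧ A.out.2 ≤ W x then 1 else 0 := ⟨_, rfl⟩
  have q6 := P1 ι f _ _ (0 + 1) (L + 1 + DA) (L + 1 + DA + 1) _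
    [(S, L), (W, L + 1 + DA)]
    (fun l : List ℝ => if (θ : ℝ) + 1 ≤ l.getD 0 0 then (1 : ℝ) else
      if (θ : ℝ) ≤ l.getD 0 0 ∧ A.out.2 ≤ l.getD 1 0 then 1 else 0) q5 ?_ (by simpa using hf)
      (nondec_out ((θ : ℝ) + 1) θ A.out.2) (Nat.le_succ _) le_rfl
  swap
  · intro p hp
    simp only [List.mem_cons, List.not_mem_nil, or_false] at hp
    rcases hp with rfl | rfl
    · exact ⟨Set.mem_insert_of_mem _ (Set.mem_insert_of_mem _ (b1 m1)), by simp only; omega⟩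
    · exact ⟨Set.mem_insert_of_mem _ (Set.mem_insert _ _), le_rfl⟩
  have hg1' : (fun x => (fun l : List ℝ => if (θ : ℝ) + 1 ≤ l.getD 0 0 then (1 : ℝ) else
      if (θ : ℝ) ≤ l.getD 0 0 ∧ A.out.2 ≤ l.getD 1 0 then 1 else 0)
      (([(S, L), (W, L + 1 + DA)] : List (((ι → Bool) → ℝ) × ℕ)).map (fun p => p.1 x))) = g1 := by
    rw [hg1]
    funext x
    simp
  rw [hg1'] at q6
  have q7 := P1 ι f _ _ (0 + 1) (L + 1 + DA + 1) (L + 1 + DA + 1 + 1) _
    [(N, L + 1), (g1, L + 1 + DA + 1)]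
    (fun l : List ℝ => 1 * l.getD 0 0 + 1 * l.getD 1 0 - 0) q6 ?_ (by simpa using hf)
      (nondec_lin zero_le_one zero_le_one) (Nat.le_succ _) le_rfl
  swap
  · intro p hp
    simp only [List.mem_cons, List.not_mem_nil, or_false] at hp
    rcases hp with rfl | rfl
    · exact ⟨Set.mem_insert_of_mem _ (Set.mem_insert _ _), by simp only; omega⟩
    · exact ⟨Set.mem_insert _ _, le_rfl⟩
  obtain ⟨C, c1, c2, c3, -, c5⟩ := circ_of_prog q7 (Set.mem_insert _ _)
  refine ⟨C, c1, c2, ?_, ?_⟩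
  · refine c3.trans ?_
    rw [hs1, Fintype.card_option, card_univ, ← hn]
    have h1 : (n + 1) * 2 ^ L ≤ (n + 1) * (2 * n + 1) := Nat.mul_le_mul_left _ hL2
    omega
  · intro x
    have hSx : S x = (ones x : ℝ) := by
      rw [hS]
      dsimp only
      rw [sum_GG hnL]
      unfold ones inp
      simp [Finset.sum_boole]
    have hSpx : ∀ p, Sp p x = S x - inp p x := by
      intro p
      rw [hSp, hS]
      dsimp only
      rw [sum_GG hnL, sum_GG hnL, eq_sub_iff_add_eq]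
      have e1 : inp p x = ∑ q, if some p = some q then inp q x else 0 := by
        simp
      rw [e1, ← sum_add_distrib]
      refine sum_congr rfl fun q _ => ?_
      by_cases h : some p = some q
      · rw [if_pos h, if_pos h, if_neg (by simp)]; ring
      · rw [if_neg h, if_neg h, if_neg (by simp)]; ring
    have hθ' : ((θ : ℝ) ≤ S x) ↔ θ ≤ ones x := by
      rw [hSx]
      exact Nat.cast_le
    have hc' : ((θ : ℝ) + 1 ≤ S x) ↔ θ + 1 ≤ ones x := by
      rw [hSx]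
      exact_mod_cast Iff.rfl
    have hC5 : C.eval x = true ↔ 1 ≤ N x + g1 x := by
      rw [c5]
      simp
    rw [← not_iff_not, Bool.not_eq_false, hC5]
    have hN01 : N x = if θ ≤ ones x then 0 else 1 := by
      rw [hN]
      dsimp only
      by_cases h : θ ≤ ones x
      · rw [if_pos h, if_pos (hθ'.2 h)]
      · rw [if_neg h, if_neg (fun h' => h (hθ'.1 h'))]
    rcases lt_trichotomy (ones x) θ with h | h | h
    · have e1 : N x = 1 := by rw [hN01, if_neg (by omega)]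
      have e2 : 0 ≤ g1 x := by
        rw [hg1]
        dsimp only
        split_ifs <;> norm_num
      constructor
      · intro _ h'
        omega
      · intro _
        linarith
    · have e1 : N x = 0 := by rw [hN01, if_pos (by omega)]
      have h2 : ∀ i, Sp i x + 0 - θ = - inp i x := by
        intro i
        rw [hSpx i, hSx, h]
        ring
      have h3 := hW x h2
      have e2 : g1 x = if A.eval x = true then 1 else 0 := by
        rw [hg1]
        dsimp only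
        rw [if_neg (fun h' => by have := hc'.1 h'; omega)]
        by_cases h4 : A.eval x = true
        · rw [if_pos h4, if_pos ⟨hθ'.2 (by omega), h3.2 h4⟩]
        · rw [if_neg h4, if_neg (fun h' => h4 (h3.1 h'.2))]
      rw [e1, e2, zero_add]
      by_cases h4 : A.eval x = true
      · rw [if_pos h4, h4]
        simp
      · rw [if_neg h4]
        simp only [Bool.not_eq_true] at h4
        constructor
        · intro h5
          norm_num at h5
        · intro h5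
          exact absurd ⟨h, h4⟩ h5
    · have e1 : N x = 0 := by rw [hN01, if_pos (by omega)]
      have e2 : g1 x = 1 := by
        rw [hg1]
        dsimp only
        rw [if_pos (hc'.2 (by omega))]
      constructor
      · intro _ h'
        omega
      · intro _
        rw [e1, e2]
        norm_num

/-- One gate of the second kind, with one test. -/
theorem one_not {n : ℕ} (hn : 2 ≤ n) {f' d' : ℕ} (A : RW.Circuit (Fin n × Fin n)) (hf : 2 ≤ f')
    (hd : 2 * d' ≤ f') (hA : A.FanIn f' d') (θ : ℕ) :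
    ∃ C : RW.Circuit (Fin n × Fin n), C.FanIn f' 1 ∧ C.numOther = 1 ∧
      C.size ≤ 2 * A.size + 10 * n ^ 4 ∧
      ∀ x, C.eval x = false ↔ ones x = θ ∧ A.eval x = false := by
  obtain ⟨C, h1, h2, h3, h4⟩ := one_not_aux Pool.Agent.T9h67.QC.stP0
    Pool.Agent.T9h67.QC.stP1 Pool.Agent.T9h67.QC.stP2 Pool.Agent.T9h67.QC.stP3
    (Pool.Agent.T9h35.QC.stP4 Pool.Agent.T9h67.QC.stP1) (Fin n × Fin n) f' d' θ A hf hA hd
  obtain ⟨C', g1, g2, g3, g4⟩ := AV.exists_fix C h1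
  refine ⟨C', g1, g2.trans h2, ?_, fun x => by rw [g4, h4]⟩
  rw [g3]
  refine h3.trans ?_
  have hcard : Fintype.card (Fin n × Fin n) = n * n := by simp
  rw [hcard]
  have h5 : n ^ 4 = (n * n) * (n * n) := by ring
  rw [h5]
  have hN4 : 4 ≤ n * n := by nlinarith
  obtain ⟨N, hN⟩ : ∃ N, N = n * n := ⟨_, rfl⟩
  rw [← hN] at hN4 ⊢
  nlinarith

end Pool.Agent.T9h35.CN
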