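import Pool.Agent.T9h35.CN.Seg
import Pool.Agent.T9h35.CN.OneNot

set_option autoImplicit false

/-!
# Certificates of the absence of cliques
-/

namespace Pool.Agent.T9h35.CN

open Finset
open Pool.Agent.T9h34 (ind ind_of ind_not ind_nonneg ind_le_one graphInput)
open Pool.Agent.T9h34.V (grid_data)
open Pool.Agent.VC34 (fanIn_mono sum_filter_ind numTests_eq answers_eq changes_le' changes
  numTests answers)
open Pool.Agent.T9h35.SG (star_data)
open Pool.Agent.T9h34.Q (ones)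
open scoped Classical

theorem certificates_one : ∃ K : ℕ, ∀ n k s f b : ℕ, 1 ≤ b → 2 ≤ k → k ≤ n →
    K * (Nat.log 2 s + Nat.log 2 n + 1) *
      (Nat.log 2 (Nat.log 2 s + Nat.log 2 n + 1 + f) + 1 + b) ^ 3 ≤ k * b ^ 4 →
    ∃ (M : ℕ) (Ω : Type) (_ : Fintype Ω) (ν : Ω → ℝ) (G : Ω → ℕ → SimpleGraph (Fin n)),
      (n - k) ^ 2 ≤ K * (Nat.log 2 s + Nat.log 2 n + 1) ^ 2 * (Nat.log 2 s + Nat.log 2 n + 1 + f) *
        (Nat.log 2 (Nat.log 2 s + Nat.log 2 n + 1 + f) + 1) ^ 7 * 2 ^ (9 * b) * (M + 1) ∧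
      (K * (Nat.log 2 s + Nat.log 2 n + 1) * (Nat.log 2 s + Nat.log 2 n + 1 + f) *
        (Nat.log 2 (Nat.log 2 s + Nat.log 2 n + 1 + f) + 1) ^ 5 * 2 ^ (5 * b) ≤ n - k →
      (n - k) ^ 2 ≤ K * (Nat.log 2 s + Nat.log 2 n + 1) * (Nat.log 2 s + Nat.log 2 n + 1 + f) *
        (Nat.log 2 (Nat.log 2 s + Nat.log 2 n + 1 + f) + 1) ^ 5 * 2 ^ (5 * b) * M) ∧
      (∀ ω, 0 ≤ ν ω) ∧ ∑ ω, ν ω = 1 ∧ (∀ ω i, G ω i ≤ G ω (i + 1)) ∧
      (∀ ω i, ¬ ∃ S, (G ω i).IsNClique k S) ∧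
      ∀ (d : ℕ) (C : RW.Circuit (Fin n × Fin n)), C.FanIn f d → C.size + numTests C ≤ s →
        (∀ H : SimpleGraph (Fin n), (∃ S, H.IsNClique k S) → C.eval (graphInput H) = true) →
        (∀ i h : ℕ, i + h ≤ M →
          ∑ ω with (C.eval (graphInput (G ω (i + h))) = false ∧ ∀ j < h,
            answers C (graphInput (G ω (i + j))) = answers C (graphInput (G ω (i + j + 1)))),
            ν ω ≤ (3 / 4) ^ h) ∧
        ∑ i ∈ range (M + 1), ∑ ω with C.eval (graphInput (G ω i)) = false, ν ω ≤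
          4 + 4 * ∑ ω, ν ω * changes C M (G ω) ∧
        ∀ ω, changes C M (G ω) + d ≤ d * 2 ^ C.numOther := by
  refine ⟨10 ^ 38, ?_⟩
  intro n q s f β hβ hq2 hqn hq
  obtain ⟨K, hK⟩ : ∃ K, K = 10 ^ 38 := ⟨_, rfl⟩
  have hK2 : 10 ^ 38 ≤ K := by omega
  rw [← hK] at hq ⊢
  obtain ⟨L0, hL0⟩ : ∃ L0, L0 = Nat.log 2 s + Nat.log 2 n + 1 := ⟨_, rfl⟩
  rw [← hL0] at hq ⊢
  obtain ⟨z, hz⟩ : ∃ z, z = Nat.log 2 (L0 + f) + 1 := ⟨_, rfl⟩
  rw [← hz] at hq ⊢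
  have hL1 : 1 ≤ L0 := by omega
  have hz1 : 1 ≤ z := by omega
  have hs : s < 2 ^ L0 := lt_of_lt_of_le (Nat.lt_pow_succ_log_self (by norm_num) _)
    (Nat.pow_le_pow_right (by norm_num) (by omega))
  have hn : n < 2 ^ L0 := lt_of_lt_of_le (Nat.lt_pow_succ_log_self (by norm_num) _)
    (Nat.pow_le_pow_right (by norm_num) (by omega))
  obtain ⟨z', hz'⟩ : ∃ z', z' = Nat.log 2 (L0 + (f + 2)) + 1 := ⟨_, rfl⟩
  have hzz : z' ≤ 3 * z := by
    have h1 : Nat.log 2 (L0 + (f + 2)) < z + 2 := by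
      apply (Nat.log_lt_iff_lt_pow (by norm_num) (by omega)).2
      have h2 : L0 + f < 2 ^ z := by rw [hz]; exact Nat.lt_pow_succ_log_self (by norm_num) _
      calc L0 + (f + 2) ≤ 4 * (L0 + f) := by omega
        _ < 4 * 2 ^ z := by omega
        _ = 2 ^ (z + 2) := by rw [pow_add]; ring
    omega
  have hq' : 10 ^ 12 * (L0 * (z' + β) ^ 3) ≤ q * β ^ 4 := by
    refine le_trans ?_ hq
    calc 10 ^ 12 * (L0 * (z' + β) ^ 3) ≤ 10 ^ 12 * (L0 * (3 * (z + β)) ^ 3) :=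
          Nat.mul_le_mul_left _ (Nat.mul_le_mul_left _ (Nat.pow_le_pow_left (by omega) 3))
      _ = 27 * 10 ^ 12 * (L0 * (z + β) ^ 3) := by ring
      _ ≤ K * (L0 * (z + β) ^ 3) := Nat.mul_le_mul_right _ (le_trans (by norm_num) hK2)
      _ = _ := by ring
  have hnL : n - q < 2 ^ L0 := lt_of_le_of_lt (Nat.sub_le _ _) hn
  -- translation of the tests
  have htr : ∀ (M : ℕ) (Ω : Type) (_ : Fintype Ω) (ν : Ω → ℝ) (G : Ω → ℕ → SimpleGraph (Fin n))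
      (_ : ∀ ω i, G ω i ≤ G ω (i + 1)) (d : ℕ) (C : RW.Circuit (Fin n × Fin n))
      (_ : C.FanIn f d),
      ((∀ i h : ℕ, i + h ≤ M →
          ∑ ω with (C.eval (graphInput (G ω (i + h))) = false ∧
            ∀ j < h, C.reads (graphInput (G ω (i + j + 1))) = C.reads (graphInput (G ω (i + j)))),
            ν ω ≤ (3 / 4) ^ h) ∧
        ∑ i ∈ range (M + 1), ∑ ω with C.eval (graphInput (G ω i)) = false, ν ω ≤
          4 + 4 * ∑ ω, ν ω * ((range M).filter fun i =>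
            C.reads (graphInput (G ω (i + 1))) ≠ C.reads (graphInput (G ω i))).card) →
      (∀ i h : ℕ, i + h ≤ M →
          ∑ ω with (C.eval (graphInput (G ω (i + h))) = false ∧ ∀ j < h,
            answers C (graphInput (G ω (i + j))) = answers C (graphInput (G ω (i + j + 1)))),
            ν ω ≤ (3 / 4) ^ h) ∧
        ∑ i ∈ range (M + 1), ∑ ω with C.eval (graphInput (G ω i)) = false, ν ω ≤
          4 + 4 * ∑ ω, ν ω * changes C M (G ω) ∧
        ∀ ω, changes C M (G ω) + d ≤ d * 2 ^ C.numOther := by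
    intro M Ω _ ν G hG d C hC hh
    refine ⟨fun i h hih => ?_, ?_, fun ω => changes_le' hC (G ω) (hG ω) M⟩
    · refine le_trans (le_of_eq ?_) (hh.1 i h hih)
      simp only [answers_eq]
      congr 1
      ext ω
      simp only [mem_filter]
      constructor
      · rintro ⟨h1, h2, h3⟩
        exact ⟨h1, h2, fun j hj => (h3 j hj).symm⟩
      · rintro ⟨h1, h2, h3⟩
        exact ⟨h1, h2, fun j hj => (h3 j hj).symm⟩
    · refine hh.2.trans (le_of_eq ?_)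
      unfold changes
      simp only [answers_eq]
      simp only [ne_comm]
  by_cases hcase : K * L0 * (L0 + f) * z ^ 5 * 2 ^ (5 * β) ≤ n - q
  · have hR : 256 * 10 ^ 22 * (L0 * (L0 + (f + 2)) * z' ^ 5 * 2 ^ (5 * β)) ≤
        K * L0 * (L0 + f) * z ^ 5 * 2 ^ (5 * β) := by
      calc 256 * 10 ^ 22 * (L0 * (L0 + (f + 2)) * z' ^ 5 * 2 ^ (5 * β))
          ≤ 256 * 10 ^ 22 * (L0 * (3 * (L0 + f)) * (3 * z) ^ 5 * 2 ^ (5 * β)) := by
            apply Nat.mul_le_mul_left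
            apply Nat.mul_le_mul_right
            exact Nat.mul_le_mul (Nat.mul_le_mul_left _ (by omega)) (Nat.pow_le_pow_left hzz 5)
        _ = (256 * 10 ^ 22 * 729) * (L0 * (L0 + f) * z ^ 5 * 2 ^ (5 * β)) := by ring
        _ ≤ K * (L0 * (L0 + f) * z ^ 5 * 2 ^ (5 * β)) :=
            Nat.mul_le_mul_right _ (le_trans (by norm_num) hK2)
        _ = _ := by ring
    have hpos : 1 ≤ L0 * (L0 + (f + 2)) * z' ^ 5 := by
      have h1 : 1 ≤ z' ^ 5 := Nat.one_le_pow _ _ (by omega)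
      calc 1 = 1 * 1 * 1 := by norm_num
        _ ≤ L0 * (L0 + (f + 2)) * z' ^ 5 := Nat.mul_le_mul (Nat.mul_le_mul hL1 (by omega)) h1
    have hβL : β ≤ L0 := by
      by_contra hcon
      push Not at hcon
      have h1 : 2 ^ L0 ≤ 2 ^ (5 * β) := Nat.pow_le_pow_right (by norm_num) (by omega)
      have h2 : 1 * (1 * 2 ^ (5 * β)) ≤
          256 * 10 ^ 22 * (L0 * (L0 + (f + 2)) * z' ^ 5 * 2 ^ (5 * β)) :=
        Nat.mul_le_mul (by norm_num) (Nat.mul_le_mul_right _ hpos)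
      omega
    obtain ⟨a, r, m, p, l, c, lam, S, N, B, κ, e, σ, Φ, hl, hβlam, hcβ, ha, hp0, hX, Hy, hη, he,
      hΦ, hσ, -, hnq⟩ := star_data hqn hL1 hn hβ hβL hz' hq' (by omega)
    obtain ⟨Ω, inst, ν, G, h2, h3, h4, h5, h6⟩ :=
      seg_case (f := f + 2) (by omega) hs hl hβlam hcβ ha hX Hy hη he hΦ hσ
    have hnew : (n - q) ^ 2 ≤ K * L0 * (L0 + f) * z ^ 5 * 2 ^ (5 * β) * p ^ 2 :=
      hnq.trans (Nat.mul_le_mul_right _ hR)
    refine ⟨p ^ 2, Ω, inst, ν, G, ?_, fun _ => hnew, h2, h3, h4, h5,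
      fun d C hC hCs hacc => htr (p ^ 2) Ω inst ν G h4 d C hC
        (h6 d C (fanIn_mono (by omega) hC) (by rw [numTests_eq] at hCs; exact hCs) hacc)⟩
    refine hnew.trans (Nat.mul_le_mul ?_ (Nat.le_succ _))
    calc K * L0 * (L0 + f) * z ^ 5 * 2 ^ (5 * β)
        = K * (L0 * 1) * (L0 + f) * (z ^ 5 * 1) * 2 ^ (5 * β) := by ring
      _ ≤ K * (L0 * L0) * (L0 + f) * (z ^ 5 * z ^ 2) * 2 ^ (9 * β) := by
          have h7 : 1 ≤ z ^ 2 := Nat.one_le_pow _ _ hz1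
          have h8 : 2 ^ (5 * β) ≤ 2 ^ (9 * β) := Nat.pow_le_pow_right (by norm_num) (by omega)
          gcongr
      _ = K * L0 ^ 2 * (L0 + f) * z ^ 7 * 2 ^ (9 * β) := by ring
  have hR : 4 * 10 ^ 33 * (L0 ^ 2 * (L0 + (f + 2)) * z' ^ 7 * 2 ^ (9 * β)) ≤
      K * L0 ^ 2 * (L0 + f) * z ^ 7 * 2 ^ (9 * β) := by
    calc 4 * 10 ^ 33 * (L0 ^ 2 * (L0 + (f + 2)) * z' ^ 7 * 2 ^ (9 * β))
        ≤ 4 * 10 ^ 33 * (L0 ^ 2 * (3 * (L0 + f)) * (3 * z) ^ 7 * 2 ^ (9 * β)) := by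
          apply Nat.mul_le_mul_left
          apply Nat.mul_le_mul_right
          exact Nat.mul_le_mul (Nat.mul_le_mul_left _ (by omega)) (Nat.pow_le_pow_left hzz 7)
      _ = (4 * 10 ^ 33 * 6561) * (L0 ^ 2 * (L0 + f) * z ^ 7 * 2 ^ (9 * β)) := by ring
      _ ≤ K * (L0 ^ 2 * (L0 + f) * z ^ 7 * 2 ^ (9 * β)) :=
          Nat.mul_le_mul_right _ (le_trans (by norm_num) hK2)
      _ = _ := by ring
  by_cases hbig : β ≤ L0 ∧
      4 * 10 ^ 33 * (L0 ^ 2 * (L0 + (f + 2)) * z' ^ 7 * 2 ^ (9 * β)) < (n - q) ^ 2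
  · obtain ⟨a, r, m, p, l, c, lam, W0, S, N, B, κ, e, σ, Φ, hl, hβlam, hcβ, ha, hp0, hX, Hy, hη,
      he, hΦ, hσ, -, hnq, hW0⟩ := grid_data hqn hL1 hn hβ hbig.1 hz' hq' hbig.2
    obtain ⟨Ω, inst, ν, G, h2, h3, h4, h5, h6⟩ :=
      seg_case (f := f + 2) (by omega) hs hl hβlam hcβ ha hX Hy hη he hΦ hσ
    refine ⟨p ^ 2, Ω, inst, ν, G, ?_, fun h => absurd h hcase, h2, h3, h4, h5,
      fun d C hC hCs hacc => htr (p ^ 2) Ω inst ν G h4 d C hC
        (h6 d C (fanIn_mono (by omega) hC) (by rw [numTests_eq] at hCs; exact hCs) hacc)⟩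
    calc (n - q) ^ 2 ≤ (2 * p * W0) ^ 2 := Nat.pow_le_pow_left hnq 2
      _ = 4 * W0 ^ 2 * p ^ 2 := by ring
      _ ≤ (4 * W0) ^ 2 * p ^ 2 := by
          apply Nat.mul_le_mul_right
          rw [mul_pow]
          exact Nat.mul_le_mul_right _ (by norm_num)
      _ ≤ _ := Nat.mul_le_mul (hW0.trans hR) (Nat.le_succ _)
  · have h3 : (n - q) ^ 2 ≤ K * L0 ^ 2 * (L0 + f) * z ^ 7 * 2 ^ (9 * β) := by
      by_cases h5 : β ≤ L0
      · have h6 : (n - q) ^ 2 ≤ 4 * 10 ^ 33 * (L0 ^ 2 * (L0 + (f + 2)) * z' ^ 7 * 2 ^ (9 * β)) := by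
          by_contra h6
          push Not at h6
          exact hbig ⟨h5, h6⟩
        exact h6.trans hR
      · push Not at h5
        have h6 : (n - q) ^ 2 ≤ (2 ^ L0) ^ 2 := Nat.pow_le_pow_left (by omega) 2
        have h7 : (2 ^ L0) ^ 2 ≤ 2 ^ (9 * β) := by
          rw [← pow_mul]
          exact Nat.pow_le_pow_right (by norm_num) (by omega)
        have h8 : 1 ≤ L0 ^ 2 * (L0 + f) * z ^ 7 := Nat.one_le_iff_ne_zero.2 (by positivity)
        calc (n - q) ^ 2 ≤ 2 ^ (9 * β) := h6.trans h7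
          _ = 1 * (1 * 2 ^ (9 * β)) := by ring
          _ ≤ K * (L0 ^ 2 * (L0 + f) * z ^ 7 * 2 ^ (9 * β)) :=
              Nat.mul_le_mul (by omega) (Nat.mul_le_mul_right _ h8)
          _ = _ := by ring
    have hbot : ¬ ∃ S, (⊥ : SimpleGraph (Fin n)).IsNClique q S := by
      rintro ⟨T, hT⟩
      rw [SimpleGraph.isNClique_iff] at hT
      obtain ⟨u, hu, v, hv, huv⟩ := Finset.one_lt_card.1 (by omega : 1 < T.card)
      exact hT.1 hu hv huv
    have hle : ∀ t : Finset Unit, ∑ _ω ∈ t, (1 : ℝ) ≤ 1 := by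
      intro t
      have h6 := card_le_univ t
      rw [Fintype.card_unit] at h6
      rw [sum_const, nsmul_one]
      exact_mod_cast h6
    have htr0 := htr 0 Unit inferInstance (fun _ => 1) (fun _ _ => ⊥) (fun _ _ => le_rfl)
    refine ⟨0, Unit, inferInstance, fun _ => 1, fun _ _ => ⊥,
      by rw [zero_add, mul_one]; exact h3, fun h => absurd h hcase,
      fun _ => zero_le_one, by simp, fun _ _ => le_rfl, fun _ _ => hbot, ?_⟩
    intro d C hC _ _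
    apply htr0 d C hC
    constructor
    · intro i h hih
      have h0 : h = 0 := by omega
      subst h0
      rw [pow_zero]
      exact hle _
    · rw [zero_add, sum_range_one]
      have h8 := hle (univ.filter fun _ : Unit => C.eval (graphInput (⊥ : SimpleGraph (Fin n))) =
        false)
      have h9 : (0 : ℝ) ≤ ∑ _ω : Unit, (1 : ℝ) * ((range 0).filter fun _ : ℕ =>
            C.reads (graphInput (⊥ : SimpleGraph (Fin n))) ≠
              C.reads (graphInput (⊥ : SimpleGraph (Fin n)))).card := by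
        positivity
      linarith

/-- **Certificates of the absence of cliques**, and the converse. -/
theorem certificates : (∃ K : ℕ, ∀ n k s f b : ℕ, 1 ≤ b → 2 ≤ k → k ≤ n →
    K * (Nat.log 2 s + Nat.log 2 n + 1) *
      (Nat.log 2 (Nat.log 2 s + Nat.log 2 n + 1 + f) + 1 + b) ^ 3 ≤ k * b ^ 4 →
    ∃ (M : ℕ) (Ω : Type) (_ : Fintype Ω) (ν : Ω → ℝ) (G : Ω → ℕ → SimpleGraph (Fin n)),
      (n - k) ^ 2 ≤ K * (Nat.log 2 s + Nat.log 2 n + 1) ^ 2 * (Nat.log 2 s + Nat.log 2 n + 1 + f) *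
        (Nat.log 2 (Nat.log 2 s + Nat.log 2 n + 1 + f) + 1) ^ 7 * 2 ^ (9 * b) * (M + 1) ∧
      (K * (Nat.log 2 s + Nat.log 2 n + 1) * (Nat.log 2 s + Nat.log 2 n + 1 + f) *
        (Nat.log 2 (Nat.log 2 s + Nat.log 2 n + 1 + f) + 1) ^ 5 * 2 ^ (5 * b) ≤ n - k →
      (n - k) ^ 2 ≤ K * (Nat.log 2 s + Nat.log 2 n + 1) * (Nat.log 2 s + Nat.log 2 n + 1 + f) *
        (Nat.log 2 (Nat.log 2 s + Nat.log 2 n + 1 + f) + 1) ^ 5 * 2 ^ (5 * b) * M) ∧
      (∀ ω, 0 ≤ ν ω) ∧ ∑ ω, ν ω = 1 ∧ (∀ ω i, G ω i ≤ G ω (i + 1)) ∧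
      (∀ ω i, ¬ ∃ S, (G ω i).IsNClique k S) ∧
      ∀ (d : ℕ) (C : RW.Circuit (Fin n × Fin n)), C.FanIn f d → C.size + numTests C ≤ s →
        (∀ H : SimpleGraph (Fin n), (∃ S, H.IsNClique k S) → C.eval (graphInput H) = true) →
        (∀ i h : ℕ, i + h ≤ M →
          ∑ ω with (C.eval (graphInput (G ω (i + h))) = false ∧ ∀ j < h,
            answers C (graphInput (G ω (i + j))) = answers C (graphInput (G ω (i + j + 1)))),
            ν ω ≤ (3 / 4) ^ h) ∧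
        ∑ i ∈ range (M + 1), ∑ ω with C.eval (graphInput (G ω i)) = false, ν ω ≤
          4 + 4 * ∑ ω, ν ω * changes C M (G ω) ∧
        ∀ ω, changes C M (G ω) + d ≤ d * 2 ^ C.numOther) ∧
    ∀ (n f' d' e : ℕ) (A : RW.Circuit (Fin n × Fin n)), 2 ≤ n → 2 ≤ f' → 2 * d' ≤ f' →
      A.FanIn f' d' → ∃ B : RW.Circuit (Fin n × Fin n), B.FanIn f' 1 ∧ B.numOther = 1 ∧
        B.size ≤ 2 * A.size + 10 * n ^ 4 ∧
        ∀ G : SimpleGraph (Fin n), B.eval (graphInput G) = false ↔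
          (univ.filter fun p : Fin n × Fin n => G.Adj p.1 p.2).card = e ∧
            A.eval (graphInput G) = false := by
  refine ⟨certificates_one, ?_⟩
  intro n f' d' e A hn hf hd hA
  obtain ⟨B, h1, h2, h3, h4⟩ := one_not hn A hf hd hA e
  refine ⟨B, h1, h2, h3, fun G => ?_⟩
  rw [h4]
  have h5 : ones (graphInput G) = (univ.filter fun p : Fin n × Fin n => G.Adj p.1 p.2).card := by
    unfold ones graphInput
    congr 1
    ext p
    simp
  rw [h5]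

end Pool.Agent.T9h35.CN
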