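import Pool.Agent.T9h35.CN.Chain

set_option autoImplicit false

/-!
# Certificates of the absence of cliques: the main case
-/

namespace Pool.Agent.T9h35.CN

open Finset Pool.Agent.T9h34.S Pool.Agent.T9h34.S.Gr
open Pool.Agent.T9h34 (ind ind_of ind_not ind_nonneg ind_le_one ind_mono smalls Ev Ev_mono Spread
  chi pull Ground wordSet card_wordSet graphInput)
open Pool.Agent.T9h34.G (Row sparseCode NoiseOp)
open Pool.Agent.T9h35.RW (Circuit Gate Nondecreasing)
open Pool.Agent.T9h34.V (cutOp cutOp_word le_cutOp)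
open Pool.Agent.VC34 (fanIn_mono pull_mono eval_of_reads_eq sum_filter_ind)
open Pool.Agent.T9h35.TX (Hyp)
open scoped Classical

/-- The main case, from the data. -/
theorem seg_case {n q s f L0 β a r m p l c lam : ℕ} {S : Row a (r * β) → Fin 4 → Fin m}
    {N : NoiseOp (Ground a (r * β))} {B κ : ℝ} {e : ℕ → Fin p × Fin p}
    {σ : Fin n × Fin n → GGround a (r * β) p ⊕ Bool}
    {Φ : Finset (GGround a (r * β) p) → SimpleGraph (Fin n)}
    (hf : 2 ≤ f) (hs : s < 2 ^ L0) (hl : l = 2 * L0 + 100) (hβlam : β ≤ lam)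
    (hcβ : 3 * l < c * β) (ha : 0 < a)
    (hX : Fintype.card (Ground a (r * β)) + 1 ≤ 2 ^ lam)
    (Hy : Hyp N (wordSet (sparseCode S)) (5 * (lam * c)) c f B κ ((1 / 2 : ℝ) ^ β))
    (hη : (T9h34.S.powOp N (5 * (lam * c) + 1)).E
      (fun U => ind (∃ s, wordSet (sparseCode S) s ⊆ U)) ≤ (1 / 2 : ℝ) ^ (2 * l))
    (he : ∀ i < p ^ 2, ∀ j < p ^ 2, e i = e j → i = j)
    (hΦ : ∀ Z, (∃ T, (Φ Z).IsNClique q T) ↔ Gr.HasWord S Z)
    (hσ : ∀ Z, pull σ (chi Z) = graphInput (Φ Z)) :
    ∃ (Ω : Type) (_ : Fintype Ω) (ν : Ω → ℝ) (G : Ω → ℕ → SimpleGraph (Fin n)),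
      (∀ ω, 0 ≤ ν ω) ∧ ∑ ω, ν ω = 1 ∧ (∀ ω i, G ω i ≤ G ω (i + 1)) ∧
      (∀ ω i, ¬ ∃ T, (G ω i).IsNClique q T) ∧
      ∀ (d : ℕ) (C : Circuit (Fin n × Fin n)), C.FanIn f d → C.size + C.numTests ≤ s →
        (∀ H : SimpleGraph (Fin n), (∃ T, H.IsNClique q T) → C.eval (graphInput H) = true) →
        (∀ i h : ℕ, i + h ≤ p ^ 2 →
          ∑ ω with (C.eval (graphInput (G ω (i + h))) = false ∧
            ∀ j < h, C.reads (graphInput (G ω (i + j + 1))) = C.reads (graphInput (G ω (i + j)))),
            ν ω ≤ (3 / 4) ^ h) ∧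
        ∑ i ∈ range (p ^ 2 + 1), ∑ ω with C.eval (graphInput (G ω i)) = false, ν ω ≤
          4 + 4 * ∑ ω, ν ω * ((range (p ^ 2)).filter fun i =>
            C.reads (graphInput (G ω (i + 1))) ≠ C.reads (graphInput (G ω i))).card := by
  obtain ⟨Ω, _, ν, u, h0, h1, h2, h3, -, h7⟩ :=
    exists_chain S (T9h34.S.powOp N (5 * (lam * c) + 1)) e ha (p ^ 2) he
  obtain ⟨T, hT⟩ : ∃ T, T = cutOp S (T9h34.S.powOp N (5 * (lam * c) + 1)) := ⟨_, rfl⟩
  rw [← hT] at h7
  -- monotonicity of the embedding
  have hgi : ∀ U Z : Finset (GGround a (r * β) p), U ⊆ Z → ∀ i, graphInput (Φ U) i = true →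
      graphInput (Φ Z) i = true := by
    intro U Z hUZ
    rw [← hσ, ← hσ]
    exact pull_mono σ (Gr.chi_le hUZ)
  have hΦmono : ∀ U Z : Finset (GGround a (r * β) p), U ⊆ Z → Φ U ≤ Φ Z := by
    intro U Z hUZ v w hvw
    have h4 := hgi U Z hUZ (v, w) (by unfold graphInput; exact decide_eq_true hvw)
    unfold graphInput at h4
    exact of_decide_eq_true h4
  refine ⟨Ω, inferInstance, ν, fun ω i => Φ (u ω i), h0, h1, fun ω i => hΦmono _ _ (h2 ω i),
    fun ω i h => h3 ω i ((hΦ _).1 h), ?_⟩
  intro d C hC hCs hacc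
  have hδ : 5 * (1 / 2 : ℝ) ^ (2 * l) ≤ 1 / 4 := by
    have h4 : (1 / 2 : ℝ) ^ (2 * l) ≤ (1 / 2 : ℝ) ^ 5 :=
      pow_le_pow_of_le_one (by norm_num) (by norm_num) (by omega)
    have h5 : (1 / 2 : ℝ) ^ 5 = 1 / 32 := by norm_num
    linarith
  have herr : T9h35.TX.err (Ground a (r * β)) (5 * (lam * c)) c (s + 1) ((1 / 2 : ℝ) ^ β) ≤
      2 * (1 / 2 : ℝ) ^ (2 * l) :=
    T9h35.TX.terr_small hβlam hcβ (by omega) (by
      have h4 : 2 ^ L0 < 2 ^ l := Nat.pow_lt_pow_right (by norm_num) (by omega)
      omega) hX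
  obtain ⟨bb, hbb⟩ : ∃ bb : Finset (GGround a (r * β) p) → Finset (GGround a (r * β) p) → ℝ,
    bb = fun U Z => ind (C.eval (graphInput (Φ Z)) = false ∧
      C.reads (graphInput (Φ Z)) = C.reads (graphInput (Φ U))) := ⟨_, rfl⟩
  have hbb0 : ∀ U Z, 0 ≤ bb U Z := fun U Z => by rw [hbb]; exact ind_nonneg _
  -- one step
  have hstep : ∀ (U : Finset (GGround a (r * β) p)) (e' : Fin p × Fin p),
      T.E (fun W => bb U (put U e' W)) ≤ 3 / 4 := by
    intro U e'
    obtain ⟨E, hE1, hE2, hE3, hE4⟩ := T9h35.RW.exists_detector hf C hC (graphInput (Φ U))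
    have hm' : ∀ g ∈ (E.subst σ).gates, g.IsMono f := by
      intro g hg
      simp only [Circuit.subst, List.mem_map] at hg
      obtain ⟨g', hg', rfl⟩ := hg
      exact Gate.isMono_subst _ g' (hE1 g' hg')
    have h4 := T9h35.TX.tdom_block Hy herr (E.subst σ) hm'
      (by rw [Circuit.size_subst]; omega) U e'
    simp only [Circuit.eval_subst, hσ] at h4
    have h5 := le_cutOp S (T9h34.S.powOp N (5 * (lam * c) + 1)) hη
      (F := fun W => ind (E.eval (graphInput (Φ (put U e' W))) = true))
      (fun _ => ind_nonneg _) (fun _ => ind_le_one _)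
    rw [← hT] at h5
    have h6 : Ev (wordSet (sparseCode S))
        (fun V => ind (E.eval (graphInput (Φ (put U e' V))) = true)) = 1 := by
      unfold Ev
      have h8 : ∀ s' : Fin m → ZMod 2,
          ind (E.eval (graphInput (Φ (put U e' (wordSet (sparseCode S) s')))) = true) = 1 := by
        intro s'
        apply ind_of
        by_contra hcon
        have h9 := (hE3 _ (hgi U (put U e' (wordSet (sparseCode S) s')) subset_union_left)
          (by simpa using hcon)).2
        have h10 := hacc (Φ (put U e' (wordSet (sparseCode S) s'))) ((hΦ _).2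
          ⟨e', s', fun g hg => mem_put.2 (Or.inr ⟨rfl, hg⟩)⟩)
        rw [h10] at h9
        exact absurd h9 (by simp)
      simp only [h8]
      simp
    have h11 : T.E (fun W => bb U (put U e' W)) ≤
        T.E (fun W => 1 + (-1) * ind (E.eval (graphInput (Φ (put U e' W))) = true)) := by
      apply T.mono
      intro W
      rw [hbb]
      dsimp only
      by_cases hD : E.eval (graphInput (Φ (put U e' W))) = true
      · rw [ind_of hD, ind_not]
        · norm_num
        · rintro ⟨h12, h13⟩
          have h14 := hE4 _ h13 hD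
          rw [h12] at h14
          exact absurd h14 (by simp)
      · rw [ind_not hD]
        have := ind_le_one (C.eval (graphInput (Φ (put U e' W))) = false ∧
          C.reads (graphInput (Φ (put U e' W))) = C.reads (graphInput (Φ U)))
        linarith
    rw [T.add', T.const', T.const_mul'] at h11
    linarith
  -- all steps
  have hall : ∀ (i h : ℕ), i + h ≤ p ^ 2 →
      ∑ ω, ν ω * ∏ j ∈ range h, bb (u ω (i + j)) (u ω (i + j + 1)) ≤ (3 / 4) ^ h := by
    intro i h
    induction h with
    | zero =>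
      intro _
      simp [h1]
    | succ h ih =>
      intro hih
      have h4 := h7 (i + h) (by omega)
        (fun v => ∏ j ∈ range h, bb (v (i + j)) (v (i + j + 1)))
        (by
          intro v v' hv
          apply prod_congr rfl
          intro j hj
          rw [mem_range] at hj
          rw [hv (i + j) (by omega), hv (i + j + 1) (by omega)])
        bb
      simp only [prod_range_succ]
      rw [h4]
      calc ∑ ω, ν ω * ((∏ j ∈ range h, bb (u ω (i + j)) (u ω (i + j + 1))) *
            T.E (fun W => bb (u ω (i + h)) (put (u ω (i + h)) (e (i + h)) W)))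
          ≤ ∑ ω, (ν ω * ∏ j ∈ range h, bb (u ω (i + j)) (u ω (i + j + 1))) * (3 / 4) := by
            apply sum_le_sum
            intro ω _
            rw [← mul_assoc]
            exact mul_le_mul_of_nonneg_left (hstep _ _)
              (mul_nonneg (h0 ω) (prod_nonneg (fun _ _ => hbb0 _ _)))
        _ = (∑ ω, ν ω * ∏ j ∈ range h, bb (u ω (i + j)) (u ω (i + j + 1))) * (3 / 4) := by
            rw [sum_mul]
        _ ≤ (3 / 4) ^ h * (3 / 4) :=
            mul_le_mul_of_nonneg_right (ih (by omega)) (by norm_num)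
        _ = (3 / 4) ^ (h + 1) := by rw [pow_succ]
  constructor
  swap
  · obtain ⟨rr, hrr⟩ : ∃ rr : ℕ → ℝ, rr = fun i =>
      ∑ ω, ν ω * ind (C.eval (graphInput (Φ (u ω i))) = false) := ⟨_, rfl⟩
    obtain ⟨cc, hcc⟩ : ∃ cc : ℕ → ℝ, cc = fun i =>
      ∑ ω, ν ω * ind (C.reads (graphInput (Φ (u ω (i + 1)))) ≠
        C.reads (graphInput (Φ (u ω i)))) := ⟨_, rfl⟩
    have hr0 : ∀ i, 0 ≤ rr i := by
      intro i
      rw [hrr]
      exact sum_nonneg (fun ω _ => mul_nonneg (h0 ω) (ind_nonneg _))
    have hr1 : rr 0 ≤ 1 := by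
      rw [hrr, ← h1]
      apply sum_le_sum
      intro ω _
      calc ν ω * ind (C.eval (graphInput (Φ (u ω 0))) = false) ≤ ν ω * 1 :=
            mul_le_mul_of_nonneg_left (ind_le_one _) (h0 ω)
        _ = ν ω := mul_one _
    have hrec : ∀ i < p ^ 2, rr (i + 1) ≤ cc i + 3 / 4 * rr i := by
      intro i hi
      have h4 := h7 i hi (fun v => ind (C.eval (graphInput (Φ (v i))) = false))
        (by
          intro v v' hv
          rw [hv i le_rfl]) bb
      have h5 : rr (i + 1) ≤ cc i +
          ∑ ω, ν ω * (ind (C.eval (graphInput (Φ (u ω i))) = false) *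
            bb (u ω i) (u ω (i + 1))) := by
        rw [hrr, hcc]
        dsimp only
        rw [← sum_add_distrib]
        apply sum_le_sum
        intro ω _
        rw [← mul_add]
        apply mul_le_mul_of_nonneg_left _ (h0 ω)
        by_cases hr : C.reads (graphInput (Φ (u ω (i + 1)))) = C.reads (graphInput (Φ (u ω i)))
        · by_cases hc : C.eval (graphInput (Φ (u ω (i + 1)))) = false
          · have h8 : C.eval (graphInput (Φ (u ω i))) = false := by
              by_contra hcon
              have h9 := eval_of_reads_eq hf hC (hgi (u ω i) (u ω (i + 1)) (h2 ω i)) hr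
                (by simpa using hcon)
              rw [hc] at h9
              exact absurd h9 (by simp)
            have hb : bb (u ω i) (u ω (i + 1)) = 1 := by
              rw [hbb]
              exact ind_of ⟨hc, hr⟩
            rw [hb, ind_of hc, ind_of h8]
            have := ind_nonneg (C.reads (graphInput (Φ (u ω (i + 1)))) ≠
              C.reads (graphInput (Φ (u ω i))))
            linarith
          · rw [ind_not hc]
            have h8 := ind_nonneg (C.reads (graphInput (Φ (u ω (i + 1)))) ≠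
              C.reads (graphInput (Φ (u ω i))))
            have h9 := mul_nonneg (ind_nonneg (C.eval (graphInput (Φ (u ω i))) = false))
              (hbb0 (u ω i) (u ω (i + 1)))
            linarith
        · rw [ind_of hr]
          have h8 := ind_le_one (C.eval (graphInput (Φ (u ω (i + 1)))) = false)
          have h9 := mul_nonneg (ind_nonneg (C.eval (graphInput (Φ (u ω i))) = false))
            (hbb0 (u ω i) (u ω (i + 1)))
          linarith
      rw [h4] at h5
      refine h5.trans ?_
      have h6 : ∑ ω, ν ω * (ind (C.eval (graphInput (Φ (u ω i))) = false) *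
          T.E (fun W => bb (u ω i) (put (u ω i) (e i) W))) ≤ 3 / 4 * rr i := by
        rw [hrr]
        dsimp only
        rw [mul_sum]
        apply sum_le_sum
        intro ω _
        have h8 : ν ω * (ind (C.eval (graphInput (Φ (u ω i))) = false) *
            T.E (fun W => bb (u ω i) (put (u ω i) (e i) W))) ≤
            ν ω * (ind (C.eval (graphInput (Φ (u ω i))) = false) * (3 / 4)) :=
          mul_le_mul_of_nonneg_left (mul_le_mul_of_nonneg_left (hstep _ _) (ind_nonneg _)) (h0 ω)
        linarith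
      linarith
    have hsumr : ∑ i ∈ range (p ^ 2 + 1), rr i ≤ 4 + 4 * ∑ i ∈ range (p ^ 2), cc i := by
      have h8 : ∑ i ∈ range (p ^ 2 + 1), rr i = ∑ i ∈ range (p ^ 2), rr (i + 1) + rr 0 :=
        sum_range_succ' _ _
      have h9 : ∑ i ∈ range (p ^ 2), rr (i + 1) ≤
          ∑ i ∈ range (p ^ 2), (cc i + 3 / 4 * rr i) :=
        sum_le_sum (fun i hi => hrec i (mem_range.1 hi))
      rw [sum_add_distrib, ← mul_sum] at h9
      have h10 : ∑ i ∈ range (p ^ 2 + 1), rr i = ∑ i ∈ range (p ^ 2), rr i + rr (p ^ 2) :=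
        sum_range_succ _ _
      have h11 := hr0 (p ^ 2)
      linarith
    have hcsum : ∑ i ∈ range (p ^ 2), cc i = ∑ ω, ν ω * (((range (p ^ 2)).filter fun i =>
        C.reads (graphInput (Φ (u ω (i + 1)))) ≠ C.reads (graphInput (Φ (u ω i)))).card : ℝ) := by
      rw [hcc]
      dsimp only
      rw [sum_comm]
      apply sum_congr rfl
      intro ω _
      rw [← mul_sum, card_filter, Nat.cast_sum]
      congr 1
      apply sum_congr rfl
      intro i _
      by_cases hne : C.reads (graphInput (Φ (u ω (i + 1)))) ≠ C.reads (graphInput (Φ (u ω i)))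
      · rw [if_pos hne, ind_of hne, Nat.cast_one]
      · rw [if_neg hne, ind_not hne, Nat.cast_zero]
    rw [← hcsum]
    refine le_trans (le_of_eq ?_) hsumr
    apply sum_congr rfl
    intro i _
    rw [sum_filter_ind, hrr]
  intro i h hih
  refine le_trans ?_ (hall i h hih)
  rw [sum_filter_ind]
  apply sum_le_sum
  intro ω _
  apply mul_le_mul_of_nonneg_left _ (h0 ω)
  by_cases hev : (C.eval (graphInput (Φ (u ω (i + h)))) = false ∧
      ∀ j < h, C.reads (graphInput (Φ (u ω (i + j + 1)))) = C.reads (graphInput (Φ (u ω (i + j)))))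
  · rw [ind_of hev]
    obtain ⟨hrej, hsame⟩ := hev
    have hmono : ∀ a b : ℕ, a ≤ b → u ω a ⊆ u ω b := fun a b hab =>
      monotone_nat_of_le_succ (fun i => h2 ω i) hab
    have hsame' : ∀ j ≤ h, C.reads (graphInput (Φ (u ω (i + h)))) =
        C.reads (graphInput (Φ (u ω (i + (h - j))))) := by
      intro j
      induction j with
      | zero => intro _; rw [Nat.sub_zero]
      | succ j ih =>
        intro hj
        rw [ih (by omega)]
        have h8 := hsame (h - (j + 1)) (by omega)
        have h9 : i + (h - (j + 1)) + 1 = i + (h - j) := by omega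
        rw [h9] at h8
        exact h8
    have hone : ∀ j ∈ range h, bb (u ω (i + j)) (u ω (i + j + 1)) = 1 := by
      intro j hj
      rw [mem_range] at hj
      rw [hbb]
      apply ind_of
      refine ⟨?_, hsame j hj⟩
      by_contra hcon
      have h8 : C.eval (graphInput (Φ (u ω (i + j + 1)))) = true := by simpa using hcon
      have h10 := hsame' (h - (j + 1)) (by omega)
      have h11 : i + (h - (h - (j + 1))) = i + j + 1 := by omega
      rw [h11] at h10
      have h12 := eval_of_reads_eq hf hC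
        (hgi (u ω (i + j + 1)) (u ω (i + h)) (hmono _ _ (by omega))) h10 h8
      rw [hrej] at h12
      exact absurd h12 (by simp)
    rw [prod_congr rfl hone, prod_const_one]
  · rw [ind_not hev]
    exact prod_nonneg (fun _ _ => hbb0 _ _)

end Pool.Agent.T9h35.CN
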